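import Pool.Agent.Q269.GL.StL

/-!
# Project GL (helper269), jobs NMU, LWU, LWN, by helper166
-/

set_option autoImplicit false

namespace Pool.Agent.Q166.GL

open Finset Filter Topology Pool.Agent.Q269.GL

/-- the coefficients -/
noncomputable def cc (x : ℝ) (m : ℕ) : ℝ := x ^ (m ^ 2) / ∏ i ∈ range m, (1 - x ^ (2 * (i + 1)))

theorem fac_pos {x : ℝ} (h0 : 0 ≤ x) (h1 : x < 1) (n : ℕ) (hn : n ≠ 0) : 0 < 1 - x ^ n := by
  have := pow_lt_one₀ h0 h1 hn
  linarith

theorem den_pos {x : ℝ} (h0 : 0 ≤ x) (h1 : x < 1) (m : ℕ) : 0 < ∏ i ∈ range m, (1 - x ^ (2 * (i + 1))) :=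
  Finset.prod_pos fun i _ => fac_pos h0 h1 _ (by omega)

theorem cc_nonneg {x : ℝ} (h0 : 0 ≤ x) (h1 : x < 1) (m : ℕ) : 0 ≤ cc x m :=
  div_nonneg (pow_nonneg h0 _) (den_pos h0 h1 m).le

theorem cc_succ {x : ℝ} (h0 : 0 ≤ x) (h1 : x < 1) (m : ℕ) :
    cc x (m + 1) * (1 - x ^ (2 * (m + 1))) = cc x m * x ^ (2 * m + 1) := by
  unfold cc
  rw [Finset.prod_range_succ]
  have h2 := (den_pos h0 h1 m).ne'
  have h3 := (fac_pos h0 h1 (2 * (m + 1)) (by omega)).ne'
  have h4 : (m + 1) ^ 2 = m ^ 2 + (2 * m + 1) := by ring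
  rw [h4, pow_add]
  field_simp

theorem cc_summable {x : ℝ} (h0 : 0 ≤ x) (h1 : x < 1) : Summable (cc x) := by
  have hx1 : 0 < 1 - x := by linarith
  have h2 : Tendsto (fun m : ℕ => x ^ m) atTop (𝓝 0) := tendsto_pow_atTop_nhds_zero_of_lt_one h0 h1
  have h3 : ∀ᶠ m : ℕ in atTop, x ^ m < (1 - x) / 2 := h2.eventually_lt_const (by linarith)
  refine summable_of_ratio_norm_eventually_le (r := 1 / 2) (by norm_num) ?_
  filter_upwards [h3] with m hm
  rw [Real.norm_eq_abs, Real.norm_eq_abs, abs_of_nonneg (cc_nonneg h0 h1 _), abs_of_nonneg (cc_nonneg h0 h1 _)]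
  have h4 := cc_succ h0 h1 m
  have h5 : x ^ (2 * (m + 1)) ≤ x := by
    calc x ^ (2 * (m + 1)) ≤ x ^ 1 := pow_le_pow_of_le_one h0 h1.le (by omega)
      _ = x := pow_one x
  have h6 : x ^ (2 * m + 1) ≤ x ^ m := pow_le_pow_of_le_one h0 h1.le (by omega)
  have h7 : cc x (m + 1) * (1 - x) ≤ cc x (m + 1) * (1 - x ^ (2 * (m + 1))) :=
    mul_le_mul_of_nonneg_left (by linarith) (cc_nonneg h0 h1 _)
  have h8 : cc x m * x ^ (2 * m + 1) ≤ cc x m * ((1 - x) / 2) :=
    mul_le_mul_of_nonneg_left (by linarith) (cc_nonneg h0 h1 _)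
  have h9 : cc x (m + 1) * (1 - x) ≤ (1 / 2 * cc x m) * (1 - x) := by linarith
  exact le_of_mul_le_mul_right h9 hx1

theorem cz_summable {x : ℝ} (h0 : 0 ≤ x) (h1 : x < 1) {z : ℝ} (hz : 0 ≤ z) (hz1 : z ≤ 1) :
    Summable (fun m => cc x m * z ^ m) := by
  refine Summable.of_nonneg_of_le (fun m => mul_nonneg (cc_nonneg h0 h1 m) (pow_nonneg hz m)) (fun m => ?_)
    (cc_summable h0 h1)
  calc cc x m * z ^ m ≤ cc x m * 1 := mul_le_mul_of_nonneg_left (pow_le_one₀ hz hz1) (cc_nonneg h0 h1 m)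
    _ = cc x m := mul_one _

/-- the functional equation -/
theorem func_eq {x : ℝ} (h0 : 0 ≤ x) (h1 : x < 1) {z : ℝ} (hz : 0 ≤ z) (hz1 : z ≤ 1) :
    ∑' m, cc x m * z ^ m = (1 + x * z) * ∑' m, cc x m * (x ^ 2 * z) ^ m := by
  have hx2 : x ^ 2 * z ≤ 1 := by
    calc x ^ 2 * z ≤ 1 * 1 := mul_le_mul (pow_le_one₀ h0 h1.le) hz1 hz zero_le_one
      _ = 1 := one_mul 1
  have hs1 := cz_summable h0 h1 hz hz1
  have hs2 := cz_summable h0 h1 (by positivity : 0 ≤ x ^ 2 * z) hx2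
  have e1 : ∑' m, cc x m * z ^ m - ∑' m, cc x m * (x ^ 2 * z) ^ m =
      ∑' m, (cc x m * z ^ m - cc x m * (x ^ 2 * z) ^ m) := (hs1.tsum_sub hs2).symm
  have e2 : ∑' m, (cc x m * z ^ m - cc x m * (x ^ 2 * z) ^ m) =
      x * z * ∑' m, cc x m * (x ^ 2 * z) ^ m := by
    rw [(hs1.sub hs2).tsum_eq_zero_add]
    simp only [pow_zero, mul_one, sub_self, zero_add]
    rw [← tsum_mul_left]
    refine tsum_congr fun m => ?_
    have h3 := cc_succ h0 h1 m
    have e3 : cc x (m + 1) * z ^ (m + 1) - cc x (m + 1) * (x ^ 2 * z) ^ (m + 1) =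
        (cc x (m + 1) * (1 - x ^ (2 * (m + 1)))) * z ^ (m + 1) := by
      rw [mul_pow, ← pow_mul]
      ring
    rw [e3, h3, mul_pow, ← pow_mul]
    ring
  linarith

theorem prod_eq {x : ℝ} (h0 : 0 ≤ x) (h1 : x < 1) (N : ℕ) :
    ∑' m, cc x m = (∏ i ∈ range N, (1 + x ^ (2 * i + 1))) * ∑' m, cc x m * (x ^ (2 * N)) ^ m := by
  induction N with
  | zero => simp
  | succ N ih =>
    rw [ih, Finset.prod_range_succ, func_eq h0 h1 (pow_nonneg h0 _) (pow_le_one₀ h0 h1.le)]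
    have e1 : x * x ^ (2 * N) = x ^ (2 * N + 1) := by ring
    have e2 : x ^ 2 * x ^ (2 * N) = x ^ (2 * (N + 1)) := by ring
    rw [e1, e2]
    ring

theorem t_NMU : S_NMU := by
  intro x h0 h1
  have hsum := cc_summable h0 h1
  have hmult : Multipliable (fun i : ℕ => 1 + x ^ (2 * i + 1)) := by
    apply Real.multipliable_one_add_of_summable
    have h2 : Summable fun i : ℕ => x ^ i := summable_geometric_of_lt_one h0 h1
    refine Summable.of_nonneg_of_le (fun i => by positivity) (fun i => ?_) h2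
    exact pow_le_pow_of_le_one h0 h1.le (by omega)
  have hP := hmult.hasProd.tendsto_prod_nat
  -- the remaining factor tends to one
  have hS : Tendsto (fun N : ℕ => ∑' m, cc x m * (x ^ (2 * N)) ^ m) atTop (𝓝 1) := by
    have hx2 : Tendsto (fun N : ℕ => x ^ (2 * N)) atTop (𝓝 0) := by
      have h2 : Tendsto (fun N : ℕ => x ^ N) atTop (𝓝 0) := tendsto_pow_atTop_nhds_zero_of_lt_one h0 h1
      exact h2.comp (tendsto_id.const_mul_atTop' (by norm_num : 0 < 2))
    have hup : ∀ N : ℕ, ∑' m, cc x m * (x ^ (2 * N)) ^ m ≤ 1 + x ^ (2 * N) * ∑' m, cc x (m + 1) := by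
      intro N
      have hz : 0 ≤ x ^ (2 * N) := pow_nonneg h0 _
      have hz1 : x ^ (2 * N) ≤ 1 := pow_le_one₀ h0 h1.le
      rw [(cz_summable h0 h1 hz hz1).tsum_eq_zero_add]
      have e0 : cc x 0 * (x ^ (2 * N)) ^ 0 = 1 := by simp [cc]
      rw [e0, ← tsum_mul_left]
      have hs' : Summable fun m => cc x (m + 1) := (summable_nat_add_iff 1).mpr hsum
      refine add_le_add le_rfl (Summable.tsum_le_tsum (fun m => ?_)
        ((summable_nat_add_iff 1).mpr (cz_summable h0 h1 hz hz1)) (hs'.mul_left _))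
      rw [mul_comm (cc x (m + 1))]
      refine mul_le_mul_of_nonneg_right ?_ (cc_nonneg h0 h1 _)
      calc (x ^ (2 * N)) ^ (m + 1) ≤ (x ^ (2 * N)) ^ 1 := pow_le_pow_of_le_one hz hz1 (by omega)
        _ = x ^ (2 * N) := pow_one _
    have hlo : ∀ N : ℕ, 1 ≤ ∑' m, cc x m * (x ^ (2 * N)) ^ m := by
      intro N
      have hz : 0 ≤ x ^ (2 * N) := pow_nonneg h0 _
      have hz1 : x ^ (2 * N) ≤ 1 := pow_le_one₀ h0 h1.le
      have h2 := (cz_summable h0 h1 hz hz1).le_tsum 0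
        (fun m _ => mul_nonneg (cc_nonneg h0 h1 m) (pow_nonneg hz m))
      have e0 : cc x 0 * (x ^ (2 * N)) ^ 0 = 1 := by simp [cc]
      rw [e0] at h2
      exact h2
    have hlim : Tendsto (fun N : ℕ => 1 + x ^ (2 * N) * ∑' m, cc x (m + 1)) atTop (𝓝 1) := by
      have := (hx2.mul_const (∑' m, cc x (m + 1))).const_add 1
      simpa using this
    exact tendsto_of_tendsto_of_tendsto_of_le_of_le tendsto_const_nhds hlim hlo hup
  have hlim : Tendsto (fun _ : ℕ => ∑' m, cc x m) atTop (𝓝 ((∏' i : ℕ, (1 + x ^ (2 * i + 1))) * 1)) := by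
    have h2 := hP.mul hS
    refine h2.congr fun N => ?_
    exact (prod_eq h0 h1 N).symm
  have h3 := tendsto_nhds_unique tendsto_const_nhds hlim
  rw [mul_one] at h3
  rw [← h3]
  exact hsum.hasSum

/-- reflection of a product -/
theorem refl_prod (f : ℕ → ℝ) (t m : ℕ) :
    ∏ i ∈ range t, f (t + m - i) = ∏ l ∈ range t, f (m + l + 1) := by
  rw [← Finset.prod_range_reflect]
  refine Finset.prod_congr rfl fun i hi => ?_
  have := Finset.mem_range.mp hi
  congr 1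
  omega

/-- `ij` at a power -/
theorem ij_lt (q : ℝ) (t j : ℕ) (h : j < t) : ij q t (q ^ j) = 0 := by
  unfold ij
  exact Finset.prod_eq_zero (Finset.mem_range.mpr h) (sub_self _)

theorem ij_add (q : ℝ) (hq : 0 < q) (t m : ℕ) :
    ij q t (q ^ (m + t)) = q ^ (t * (m + t)) * ∏ l ∈ range t, (1 - q⁻¹ ^ (m + l + 1)) := by
  unfold ij
  have h1 : ∀ i ∈ range t, q ^ (m + t) - q ^ i = q ^ (m + t) * (1 - q⁻¹ ^ (t + m - i)) := by
    intro i hi
    have hi' := Finset.mem_range.mp hi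
    have e : q ^ (m + t) * q⁻¹ ^ (t + m - i) = q ^ i := by
      have h2 : m + t = i + (t + m - i) := by omega
      rw [inv_pow]
      conv_lhs => rw [h2]
      rw [pow_add]
      have : t + m - (i + (t + m - i)) = 0 := by omega
      field_simp
    rw [mul_sub, mul_one, e]
  rw [Finset.prod_congr rfl h1, Finset.prod_mul_distrib, Finset.prod_const, Finset.card_range, ← pow_mul,
    refl_prod (fun n => 1 - q⁻¹ ^ n) t m, mul_comm (m + t) t]

theorem t_LWU (h : S_NMU) : S_LWU := by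
  intro Q hQ
  have hQ0 : 0 < Q := by linarith
  set x : ℝ := Q⁻¹ with hx
  have h0 : 0 < x := inv_pos.mpr hQ0
  have h1 : x < 1 := inv_lt_one_of_one_lt₀ hQ
  have hsum := h x h0.le h1
  set P : ℝ := ∏' i : ℕ, (1 + x ^ (2 * i + 1)) with hP
  have hP1 : 1 ≤ P := by
    have h2 := le_hasSum hsum 0 (fun m _ => cc_nonneg h0.le h1 m)
    simpa using h2
  have hP0 : 0 < P := by linarith
  have hlaw : ∀ j, lawU Q j = P⁻¹ * cc x j := by
    intro j
    unfold lawU cc
    rw [← hx, ← hP]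
    ring
  have hpos : ∀ j, 0 < lawU Q j := by
    intro j
    rw [hlaw]
    have : 0 < cc x j := div_pos (pow_pos h0 _) (den_pos h0.le h1 j)
    positivity
  refine ⟨hpos, ⟨fun j => (hpos j).le, ?_⟩, ?_⟩
  · intro t
    have h2 : HasSum (fun m => (Q ^ (t ^ 2) * P⁻¹) * cc x m) (Q ^ (t ^ 2) * P⁻¹ * P) := hsum.mul_left _
    rw [mul_assoc, inv_mul_cancel₀ hP0.ne', mul_one] at h2
    have h3 : ∀ m, lawU Q (m + t) * ij (Q ^ 2) t ((Q ^ 2) ^ (m + t)) = (Q ^ (t ^ 2) * P⁻¹) * cc x m := by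
      intro m
      rw [hlaw, ij_add (Q ^ 2) (by positivity)]
      have e1 : ∀ l, ((Q ^ 2)⁻¹ : ℝ) ^ (m + l + 1) = x ^ (2 * (m + l + 1)) := by
        intro l
        rw [hx, pow_mul, inv_pow Q 2]
      simp only [e1]
      unfold cc
      have e2 : ∏ i ∈ range (m + t), (1 - x ^ (2 * (i + 1))) =
          (∏ i ∈ range m, (1 - x ^ (2 * (i + 1)))) * ∏ l ∈ range t, (1 - x ^ (2 * (m + l + 1))) := by
        rw [Finset.prod_range_add]
      rw [e2]
      have h4 := (den_pos h0.le h1 m).ne'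
      have h5 : ∏ l ∈ range t, (1 - x ^ (2 * (m + l + 1))) ≠ 0 :=
        (Finset.prod_pos fun l _ => fac_pos h0.le h1 _ (by omega)).ne'
      have e3 : x ^ ((m + t) ^ 2) * (Q ^ 2) ^ (t * (m + t)) = Q ^ (t ^ 2) * x ^ (m ^ 2) := by
        have e4 : (m + t) ^ 2 = m ^ 2 + (2 * (t * m) + t ^ 2) := by ring
        have e5 : (Q ^ 2) ^ (t * (m + t)) = Q ^ (2 * (t * m) + t ^ 2) * Q ^ (t ^ 2) := by
          rw [← pow_mul, ← pow_add]
          congr 1
          ring
        have e6 : x ^ (2 * (t * m) + t ^ 2) * Q ^ (2 * (t * m) + t ^ 2) = 1 := by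
          rw [← mul_pow, hx, inv_mul_cancel₀ hQ0.ne', one_pow]
        rw [e4, pow_add, e5]
        linear_combination x ^ (m ^ 2) * Q ^ (t ^ 2) * e6
      field_simp
      linear_combination e3
    have h4 : HasSum (fun m => lawU Q (m + t) * ij (Q ^ 2) t ((Q ^ 2) ^ (m + t))) (Q ^ (t ^ 2)) := by
      simp only [h3]
      exact h2
    have h5 := (hasSum_nat_add_iff t (f := fun j => lawU Q j * ij (Q ^ 2) t ((Q ^ 2) ^ j))).mp h4
    have h6 : ∑ i ∈ range t, lawU Q i * ij (Q ^ 2) t ((Q ^ 2) ^ i) = 0 :=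
      Finset.sum_eq_zero fun i hi => by rw [ij_lt _ t i (Finset.mem_range.mp hi), mul_zero]
    rw [h6, add_zero] at h5
    exact h5
  · have h2 : HasSum (fun m => P⁻¹ * cc x m) (P⁻¹ * P) := hsum.mul_left _
    rw [inv_mul_cancel₀ hP0.ne'] at h2
    have : lawU Q = fun j => P⁻¹ * cc x j := funext hlaw
    rw [this]
    exact h2

theorem den1_pos {x : ℝ} (h0 : 0 ≤ x) (h1 : x < 1) (m : ℕ) : 0 < ∏ i ∈ range m, (1 - x ^ (i + 1)) :=
  Finset.prod_pos fun i _ => fac_pos h0 h1 _ (by omega)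

theorem t_LWN (h : S_NMN) : S_LWN := by
  intro q hq
  have hq0 : 0 < q := by linarith
  set x : ℝ := q⁻¹ with hx
  have h0 : 0 < x := inv_pos.mpr hq0
  have h1 : x < 1 := inv_lt_one_of_one_lt₀ hq
  have hsum := h x h0.le h1
  set P : ℝ := ∏' i : ℕ, (1 - x ^ (i + 1)) with hP
  have hP0 : 0 < P := by
    have h2 := le_hasSum (hsum 0) 0 (fun m _ => by
      have := den1_pos h0.le h1 m
      have := den1_pos h0.le h1 (m + 0)
      positivity)
    have h3 : (1 : ℝ) ≤ P⁻¹ := by simpa using h2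
    have h4 : 0 < P⁻¹ := by linarith
    exact inv_pos.mp h4
  have hlaw : ∀ j, lawN q j = P * (x ^ (j ^ 2) / (∏ i ∈ range j, (1 - x ^ (i + 1))) ^ 2) := by
    intro j
    unfold lawN
    rw [← hx, ← hP]
    ring
  have hpos : ∀ j, 0 < lawN q j := by
    intro j
    rw [hlaw]
    have := den1_pos h0.le h1 j
    positivity
  have hmom : ∀ t, HasSum (fun j => lawN q j * ij q t (q ^ j)) 1 := by
    intro t
    have h2 := (hsum t).mul_left P
    rw [mul_inv_cancel₀ hP0.ne'] at h2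
    have h3 : ∀ m, lawN q (m + t) * ij q t (q ^ (m + t)) = P * (x ^ (m * (m + t)) /
        ((∏ i ∈ range m, (1 - x ^ (i + 1))) * ∏ i ∈ range (m + t), (1 - x ^ (i + 1)))) := by
      intro m
      rw [hlaw, ij_add q hq0]
      have e2 : ∏ i ∈ range (m + t), (1 - x ^ (i + 1)) =
          (∏ i ∈ range m, (1 - x ^ (i + 1))) * ∏ l ∈ range t, (1 - x ^ (m + l + 1)) := by
        rw [Finset.prod_range_add]
      rw [e2, ← hx]
      have h4 := (den1_pos h0.le h1 m).ne'
      have h5 : ∏ l ∈ range t, (1 - x ^ (m + l + 1)) ≠ 0 :=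
        (Finset.prod_pos fun l _ => fac_pos h0.le h1 _ (by omega)).ne'
      have e3 : x ^ ((m + t) ^ 2) * q ^ (t * (m + t)) = x ^ (m * (m + t)) := by
        have e4 : (m + t) ^ 2 = m * (m + t) + t * (m + t) := by ring
        have e6 : x ^ (t * (m + t)) * q ^ (t * (m + t)) = 1 := by
          rw [← mul_pow, hx, inv_mul_cancel₀ hq0.ne', one_pow]
        rw [e4, pow_add]
        linear_combination x ^ (m * (m + t)) * e6
      field_simp
      linear_combination e3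
    have h4 : HasSum (fun m => lawN q (m + t) * ij q t (q ^ (m + t))) 1 := by
      simp only [h3]
      exact h2
    have h5 := (hasSum_nat_add_iff t (f := fun j => lawN q j * ij q t (q ^ j))).mp h4
    have h6 : ∑ i ∈ range t, lawN q i * ij q t (q ^ i) = 0 :=
      Finset.sum_eq_zero fun i hi => by rw [ij_lt _ t i (Finset.mem_range.mp hi), mul_zero]
    rw [h6, add_zero] at h5
    exact h5
  refine ⟨hpos, ⟨fun j => (hpos j).le, hmom⟩, ?_⟩
  have h2 := hmom 0
  have h3 : (fun j => lawN q j * ij q 0 (q ^ j)) = lawN q := by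
    funext j
    unfold ij
    simp
  rw [h3] at h2
  exact h2

end Pool.Agent.Q166.GL
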